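import Mathlib

set_option autoImplicit false

open Polynomial

namespace Pool.Agent.R863.Stub

/-- real polynomials as complex polynomials -/
noncomputable abbrev toC (f : ℝ[X]) : ℂ[X] := f.map (algebraMap ℝ ℂ)

/-- the conjugate polynomial -/
noncomputable abbrev cj (h : ℂ[X]) : ℂ[X] := h.map (starRingEnd ℂ)

theorem toC_injective : Function.Injective toC :=
  Polynomial.map_injective _ (algebraMap ℝ ℂ).injective

theorem eval_toC (f : ℝ[X]) (x : ℝ) : (toC f).eval (x : ℂ) = ((f.eval x : ℝ) : ℂ) := by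
  rw [toC, eval_map]
  exact Polynomial.eval₂_at_apply (algebraMap ℝ ℂ) x

theorem eval_cj (h : ℂ[X]) (z : ℂ) : (cj h).eval (starRingEnd ℂ z) = starRingEnd ℂ (h.eval z) := by
  rw [cj, eval_map]
  exact Polynomial.eval₂_at_apply (starRingEnd ℂ) z

theorem eval_cj' (h : ℂ[X]) (z : ℂ) : (cj h).eval z = starRingEnd ℂ (h.eval (starRingEnd ℂ z)) := by
  rw [← eval_cj, Complex.conj_conj]

theorem cj_toC (f : ℝ[X]) : cj (toC f) = toC f := by
  rw [cj, toC, Polynomial.map_map]
  congr 1
  ext x
  simp

theorem cj_cj (h : ℂ[X]) : cj (cj h) = h := by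
  rw [cj, cj, Polynomial.map_map]
  conv_rhs => rw [← Polynomial.map_id (p := h)]
  congr 1
  ext x
  simp

theorem exists_re_im (h : ℂ[X]) : ∃ u v : ℝ[X], u.natDegree ≤ h.natDegree ∧
    v.natDegree ≤ h.natDegree ∧ h = toC u + C Complex.I * toC v := by
  refine ⟨∑ i ∈ Finset.range (h.natDegree + 1), C (h.coeff i).re * X ^ i,
    ∑ i ∈ Finset.range (h.natDegree + 1), C (h.coeff i).im * X ^ i, ?_, ?_, ?_⟩
  · refine natDegree_sum_le_of_forall_le _ _ fun i hi => (natDegree_C_mul_X_pow_le _ _).trans ?_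
    exact Nat.lt_succ_iff.1 (Finset.mem_range.1 hi)
  · refine natDegree_sum_le_of_forall_le _ _ fun i hi => (natDegree_C_mul_X_pow_le _ _).trans ?_
    exact Nat.lt_succ_iff.1 (Finset.mem_range.1 hi)
  · conv_lhs => rw [h.as_sum_range_C_mul_X_pow]
    simp only [toC, Polynomial.map_sum, Polynomial.map_mul, Polynomial.map_pow, map_C, map_X]
    rw [Finset.mul_sum, ← Finset.sum_add_distrib]
    refine Finset.sum_congr rfl fun i _ => ?_
    rw [← mul_assoc, ← add_mul, ← C_mul, ← C_add]
    congr 2
    rw [mul_comm]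
    exact (Complex.re_add_im _).symm

/-- a complex polynomial and its conjugate multiply to a sum of two squares -/
theorem mul_cj (u v : ℝ[X]) : (toC u + C Complex.I * toC v) * cj (toC u + C Complex.I * toC v) =
    toC (u ^ 2 + v ^ 2) := by
  have h : cj (toC u + C Complex.I * toC v) = toC u - C Complex.I * toC v := by
    have h1 := cj_toC u
    have h2 := cj_toC v
    rw [cj] at h1 h2
    rw [cj, Polynomial.map_add, Polynomial.map_mul, h1, h2, map_C, Complex.conj_I, C_neg]
    ring
  have hI : (C Complex.I * C Complex.I : ℂ[X]) = -1 := by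
    rw [← C_mul, Complex.I_mul_I, C_neg, C_1]
  rw [h]
  simp only [toC, Polynomial.map_add, Polynomial.map_pow]
  linear_combination (-(v.map (algebraMap ℝ ℂ)) ^ 2) * hI

/-- the quadratic polynomial with the roots `a`, `conj a` -/
noncomputable def quad (a : ℂ) : ℝ[X] := X ^ 2 - C (2 * a.re) * X + C (a.re ^ 2 + a.im ^ 2)

theorem toC_quad (a : ℂ) : toC (quad a) = (X - C a) * (X - C (starRingEnd ℂ a)) := by
  have h1 : (C ((2 * a.re : ℝ) : ℂ) : ℂ[X]) = C a + C (starRingEnd ℂ a) := by
    rw [← C_add]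
    congr 1
    rw [Complex.add_conj]
  have h2 : (C ((a.re ^ 2 + a.im ^ 2 : ℝ) : ℂ) : ℂ[X]) = C a * C (starRingEnd ℂ a) := by
    rw [← C_mul]
    congr 1
    rw [Complex.mul_conj, Complex.normSq_apply]
    push_cast
    ring
  simp only [toC, quad, Polynomial.map_add, Polynomial.map_sub, Polynomial.map_mul,
    Polynomial.map_pow, map_X, map_C, Complex.coe_algebraMap]
  rw [h1, h2]
  ring

theorem quad_monic (a : ℂ) : (quad a).Monic := by
  unfold quad
  monicity!

theorem natDegree_quad (a : ℂ) : (quad a).natDegree = 2 := by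
  unfold quad
  compute_degree!

theorem eval_quad (a : ℂ) (x : ℝ) : (quad a).eval x = (x - a.re) ^ 2 + a.im ^ 2 := by
  simp only [quad, eval_add, eval_sub, eval_mul, eval_pow, eval_X, eval_C]
  ring

/-- a nonnegative polynomial of positive degree has a quadratic factor -/
theorem exists_quad {f : ℝ[X]} (hf : ∀ x, 0 ≤ f.eval x) {a : ℂ} (ha : (toC f).eval a = 0) :
    quad a ∣ f := by
  by_cases him : a.im = 0
  · have ha' : a = (a.re : ℂ) := by
      apply Complex.ext
      · simp
      · simpa using him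
    have h0 : f.eval a.re = 0 := by
      rw [ha', eval_toC] at ha
      exact_mod_cast ha
    obtain ⟨f1, hf1⟩ := dvd_iff_isRoot.2 h0
    have h1 : (derivative f).eval a.re = 0 := by
      have hmin : IsLocalMin (fun x => f.eval x) a.re := by
        refine Filter.Eventually.of_forall fun x => ?_
        change f.eval a.re ≤ f.eval x
        rw [h0]
        exact hf x
      have h2 := hmin.deriv_eq_zero
      rwa [Polynomial.deriv] at h2
    have h2 : f1.eval a.re = 0 := by
      rw [hf1] at h1
      simpa using h1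
    obtain ⟨f2, hf2⟩ := dvd_iff_isRoot.2 h2
    refine ⟨f2, ?_⟩
    have h3 : quad a = (X - C a.re) ^ 2 := by
      unfold quad
      rw [him]
      simp only [C_add, C_mul, C_pow, C_0]
      rw [show (C (2 : ℝ) : ℝ[X]) = 2 from rfl]
      ring
    rw [h3, hf1, hf2]
    ring
  · have h := Polynomial.quadratic_dvd_of_aeval_eq_zero_im_ne_zero f (z := a)
      (by rw [Polynomial.aeval_def, ← eval_map]; exact ha) him
    have h2 : (‖a‖ ^ 2 : ℝ) = a.re ^ 2 + a.im ^ 2 := by
      rw [Complex.sq_norm, Complex.normSq_apply]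
      ring
    rw [h2] at h
    exact h

theorem nonneg_of_mul {f g : ℝ[X]} {a : ℂ} (h : f = quad a * g) (hf : ∀ x, 0 ≤ f.eval x) (x : ℝ) :
    0 ≤ g.eval x := by
  have hclosed : IsClosed {x : ℝ | 0 ≤ g.eval x} :=
    isClosed_le continuous_const g.continuous
  have hsub : ({a.re}ᶜ : Set ℝ) ⊆ {x : ℝ | 0 ≤ g.eval x} := by
    intro y hy
    have h1 := hf y
    rw [h, eval_mul, eval_quad] at h1
    have h2 : 0 < (y - a.re) ^ 2 + a.im ^ 2 := by
      have : y - a.re ≠ 0 := sub_ne_zero.2 hy
      positivity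
    exact nonneg_of_mul_nonneg_right h1 h2
  have h3 := closure_minimal hsub hclosed
  rw [(dense_compl_singleton a.re).closure_eq] at h3
  exact h3 (Set.mem_univ x)

/-- the factorization of nonnegative polynomials -/
theorem factor (n : ℕ) : ∀ f : ℝ[X], f.natDegree ≤ n → f ≠ 0 → (∀ x, 0 ≤ f.eval x) →
    ∃ (c : ℝ) (s : Multiset ℂ), 0 < c ∧ (∀ a ∈ s, a.im ≤ 0) ∧ 2 * Multiset.card s = f.natDegree ∧
      f = C c * (s.map quad).prod := by
  induction n using Nat.strong_induction_on with
  | _ n ih =>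
    intro f hn h0 hf
    by_cases hd : f.natDegree = 0
    · obtain ⟨c, hc⟩ := natDegree_eq_zero.1 hd
      refine ⟨c, 0, ?_, by simp, by simp [hd], by simp [hc]⟩
      have h1 := hf 0
      rw [← hc, eval_C] at h1
      refine lt_of_le_of_ne h1 fun h2 => h0 ?_
      rw [← hc, ← h2, C_0]
    · have hdeg : (toC f).degree ≠ 0 := by
        rw [toC, degree_map]
        intro h
        exact hd (natDegree_eq_of_degree_eq_some h)
      obtain ⟨z, hz⟩ := IsAlgClosed.exists_root (toC f) hdeg
      obtain ⟨a, ha, him⟩ : ∃ a : ℂ, (toC f).eval a = 0 ∧ a.im ≤ 0 := by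
        rcases le_total z.im 0 with h | h
        · exact ⟨z, hz, h⟩
        · refine ⟨starRingEnd ℂ z, ?_, by simpa using h⟩
          rw [← cj_toC f, eval_cj, hz, map_zero]
      obtain ⟨g, hg⟩ := exists_quad hf ha
      have hg0 : g ≠ 0 := by
        rintro rfl
        exact h0 (by rw [hg, mul_zero])
      have hdeg2 : f.natDegree = 2 + g.natDegree := by
        rw [hg, (quad_monic a).natDegree_mul' hg0, natDegree_quad]
      obtain ⟨c, s, hc, hs, hcard, hprod⟩ := ih g.natDegree (by omega) g le_rfl hg0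
        (nonneg_of_mul hg hf)
      refine ⟨c, a ::ₘ s, hc, ?_, ?_, ?_⟩
      · intro b hb
        rcases Multiset.mem_cons.1 hb with rfl | hb
        · exact him
        · exact hs b hb
      · rw [Multiset.card_cons]
        omega
      · rw [Multiset.map_cons, Multiset.prod_cons, hg]
        conv_lhs => rw [hprod]
        ring

theorem norm_sub_conj_le {t a : ℂ} (ht : 0 < t.im) (ha : a.im ≤ 0) :
    ‖t - starRingEnd ℂ a‖ ≤ ‖t - a‖ := by
  rw [← sq_le_sq₀ (norm_nonneg _) (norm_nonneg _), Complex.sq_norm, Complex.sq_norm,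
    Complex.normSq_apply, Complex.normSq_apply]
  simp only [Complex.sub_re, Complex.sub_im, Complex.conj_re, Complex.conj_im]
  nlinarith [mul_nonneg ht.le (neg_nonneg.2 ha)]

theorem norm_sub_conj_lt {t a : ℂ} (ht : 0 < t.im) (ha : a.im < 0) :
    ‖t - starRingEnd ℂ a‖ < ‖t - a‖ := by
  rw [← sq_lt_sq₀ (norm_nonneg _) (norm_nonneg _), Complex.sq_norm, Complex.sq_norm,
    Complex.normSq_apply, Complex.normSq_apply]
  simp only [Complex.sub_re, Complex.sub_im, Complex.conj_re, Complex.conj_im]
  nlinarith [mul_pos ht (neg_pos.2 ha)]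

/-- the complex factor of a nonnegative polynomial with the roots in the lower half plane -/
theorem exists_half {f : ℝ[X]} (h0 : f ≠ 0) (hf : ∀ x, 0 ≤ f.eval x) :
    ∃ g : ℂ[X], 2 * g.natDegree = f.natDegree ∧ toC f = g * cj g ∧
      ∀ t : ℂ, 0 < t.im → g.eval t ≠ 0 ∧ ‖(cj g).eval t‖ ≤ ‖g.eval t‖ := by
  obtain ⟨c, s, hc, hs, hcard, hprod⟩ := factor f.natDegree f le_rfl h0 hf
  have hsq : ((Real.sqrt c : ℝ) : ℂ) * ((Real.sqrt c : ℝ) : ℂ) = (c : ℂ) := by
    rw [← Complex.ofReal_mul, Real.mul_self_sqrt hc.le]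
  have hne : ((Real.sqrt c : ℝ) : ℂ) ≠ 0 := by
    intro h
    rw [h, zero_mul] at hsq
    exact hc.ne' (by exact_mod_cast hsq.symm)
  have hcj : cj (C ((Real.sqrt c : ℝ) : ℂ) * (s.map fun a => X - C a).prod) =
      C ((Real.sqrt c : ℝ) : ℂ) * (s.map fun a => X - C (starRingEnd ℂ a)).prod := by
    rw [cj, Polynomial.map_mul, map_C, Complex.conj_ofReal, Polynomial.map_multiset_prod,
      Multiset.map_map]
    congr 2
    refine Multiset.map_congr rfl fun a _ => ?_
    simp
  refine ⟨C ((Real.sqrt c : ℝ) : ℂ) * (s.map fun a => X - C a).prod, ?_, ?_, ?_⟩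
  · rw [natDegree_C_mul hne, natDegree_multiset_prod_X_sub_C_eq_card, hcard]
  · rw [hcj]
    conv_lhs => rw [hprod]
    rw [toC, Polynomial.map_mul, map_C, Polynomial.map_multiset_prod, Multiset.map_map]
    have h1 : (s.map (Polynomial.map (algebraMap ℝ ℂ) ∘ quad)) =
        s.map fun a => (X - C a) * (X - C (starRingEnd ℂ a)) :=
      Multiset.map_congr rfl fun a _ => toC_quad a
    rw [h1, Multiset.prod_map_mul, Complex.coe_algebraMap, ← hsq, C_mul]
    ring
  · intro t ht
    rw [hcj]
    simp only [eval_mul, eval_C, eval_multiset_prod, Multiset.map_map, Function.comp_def,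
      eval_sub, eval_X]
    clear hcj hprod hcard
    constructor
    · refine mul_ne_zero hne ?_
      intro h
      rw [Multiset.prod_eq_zero_iff, Multiset.mem_map] at h
      obtain ⟨a, ha, h⟩ := h
      have h1 := hs a ha
      rw [sub_eq_zero.1 h] at ht
      linarith
    · rw [norm_mul, norm_mul]
      refine mul_le_mul_of_nonneg_left ?_ (norm_nonneg _)
      induction s using Multiset.induction_on with
      | empty => simp
      | cons a s ih =>
        rw [Multiset.map_cons, Multiset.map_cons, Multiset.prod_cons, Multiset.prod_cons, norm_mul,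
          norm_mul]
        refine mul_le_mul (norm_sub_conj_le ht (hs a (Multiset.mem_cons_self a s)))
          (ih fun b hb => hs b (Multiset.mem_cons_of_mem hb)) (norm_nonneg _) (norm_nonneg _)

end Pool.Agent.R863.Stub
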