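import Mathlib
import Pool.Agent.R863.Stub.Poly

set_option autoImplicit false

open Polynomial Filter Topology

namespace Pool.Agent.R863.Stub

theorem sq_dvd {H : ℂ[X]} {t : ℂ} (h0 : H.eval t = 0) (h1 : (derivative H).eval t = 0) :
    (X - C t) ^ 2 ∣ H := by
  obtain ⟨H1, rfl⟩ := dvd_iff_isRoot.2 h0
  have h2 : H1.eval t = 0 := by simpa using h1
  obtain ⟨H2, rfl⟩ := dvd_iff_isRoot.2 h2
  exact ⟨H2, by ring⟩

theorem taylor_dvd (H : ℂ[X]) (t : ℂ) :
    (X - C t) ^ 2 ∣ H - (C (H.eval t) + C ((derivative H).eval t) * (X - C t)) := by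
  apply sq_dvd
  · simp
  · simp

theorem exists_inv {H : ℂ[X]} {t : ℂ} (h : H.eval t ≠ 0) :
    ∃ V : ℂ[X], (X - C t) ^ 2 ∣ H * V - 1 := by
  have h1 : IsCoprime (X - C t) H := (irreducible_X_sub_C t).coprime_iff_not_dvd.2
    (by rw [dvd_iff_isRoot]; exact h)
  obtain ⟨a, b, hab⟩ := h1.pow_left (m := 2)
  exact ⟨b, -a, by linear_combination hab⟩

theorem exists_jet (F : ℂ[X]) (t ρ : ℂ) (h : ρ ^ 2 = F.eval t) : ∃ R : ℂ[X], R.eval t = ρ ∧
    ∀ l, 1 ≤ l → (X - C t) ^ 2 ∣ F ^ (2 * l + 1) - (F ^ l * R) ^ 2 := by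
  by_cases hρ : ρ = 0
  · refine ⟨0, by simp [hρ], fun l hl => ?_⟩
    rw [mul_zero, zero_pow two_ne_zero, sub_zero]
    have h1 : (X - C t) ∣ F := by
      rw [dvd_iff_isRoot, IsRoot, ← h, hρ]
      ring
    exact (pow_dvd_pow_of_dvd h1 2).trans (pow_dvd_pow F (by omega))
  · refine ⟨C ρ + C ((derivative F).eval t / (2 * ρ)) * (X - C t), by simp, fun l _ => ?_⟩
    have h1 : (X - C t) ^ 2 ∣ F - (C ρ + C ((derivative F).eval t / (2 * ρ)) * (X - C t)) ^ 2 := by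
      apply sq_dvd
      · simp [h]
      · have h2 : (2 : ℂ) ≠ 0 := two_ne_zero
        simp [derivative_pow]
        field_simp
        ring
    have h3 : F ^ (2 * l + 1) -
        (F ^ l * (C ρ + C ((derivative F).eval t / (2 * ρ)) * (X - C t))) ^ 2 =
        F ^ (2 * l) * (F - (C ρ + C ((derivative F).eval t / (2 * ρ)) * (X - C t)) ^ 2) := by
      rw [mul_pow, ← pow_mul, mul_comm l 2, pow_succ]
      ring
    rw [h3]
    exact Dvd.dvd.mul_left h1 _

theorem im_le_norm {ζ : ℂ} (x : ℝ) : |ζ.im| ≤ ‖(x : ℂ) - ζ‖ := by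
  have h := Complex.abs_im_le_norm ((x : ℂ) - ζ)
  simpa using h

theorem bound (T : ℂ[X]) (M : ℕ) (hT : T.natDegree ≤ M) {ζ : ℂ} (hζ : ζ.im < 0) :
    ∃ B : ℝ, 0 < B ∧ ∀ x : ℝ, ‖T.eval (x : ℂ)‖ ≤ B * ‖(x : ℂ) - ζ‖ ^ M := by
  have him : 0 < |ζ.im| := abs_pos.2 hζ.ne
  refine ⟨∑ i ∈ Finset.range (M + 1), ‖(taylor ζ T).coeff i‖ * (|ζ.im| ^ (M - i))⁻¹ + 1, by positivity,
    fun x => ?_⟩
  have hpos : 0 < ‖(x : ℂ) - ζ‖ := him.trans_le (im_le_norm x)
  have h1 : T.eval (x : ℂ) = ∑ i ∈ Finset.range (M + 1), (taylor ζ T).coeff i * ((x : ℂ) - ζ) ^ i := by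
    conv_lhs => rw [← sum_taylor_eq T ζ]
    rw [Polynomial.sum_over_range' _ (by simp) (M + 1) (by rw [natDegree_taylor]; omega),
      eval_finsetSum]
    refine Finset.sum_congr rfl fun i _ => ?_
    simp
  rw [h1, add_mul, Finset.sum_mul]
  refine (norm_sum_le _ _).trans ?_
  have h2 : ∑ i ∈ Finset.range (M + 1), ‖(taylor ζ T).coeff i * ((x : ℂ) - ζ) ^ i‖ ≤
      ∑ i ∈ Finset.range (M + 1), ‖(taylor ζ T).coeff i‖ * (|ζ.im| ^ (M - i))⁻¹ *
        ‖(x : ℂ) - ζ‖ ^ M := by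
    refine Finset.sum_le_sum fun i hi => ?_
    have hi' : i ≤ M := Nat.lt_succ_iff.1 (Finset.mem_range.1 hi)
    rw [norm_mul, norm_pow, mul_assoc]
    refine mul_le_mul_of_nonneg_left ?_ (norm_nonneg _)
    rw [← div_eq_inv_mul, le_div_iff₀ (by positivity)]
    calc ‖(x : ℂ) - ζ‖ ^ i * |ζ.im| ^ (M - i) ≤ ‖(x : ℂ) - ζ‖ ^ i * ‖(x : ℂ) - ζ‖ ^ (M - i) := by
          gcongr
          exact im_le_norm x
      _ = ‖(x : ℂ) - ζ‖ ^ M := by rw [← pow_add, Nat.add_sub_cancel' hi']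
  have h3 : 0 ≤ 1 * ‖(x : ℂ) - ζ‖ ^ M := by positivity
  linarith

theorem tendsto_jet {w : ℂ} (hw : ‖w‖ < 1) (z0 z1 w1 : ℂ) :
    Tendsto (fun n : ℕ => w ^ n * z1 + (n : ℂ) * w ^ (n - 1) * w1 * z0) atTop (𝓝 0) := by
  have h1 : Tendsto (fun n : ℕ => w ^ n) atTop (𝓝 0) :=
    tendsto_pow_atTop_nhds_zero_of_norm_lt_one hw
  have h2 : Tendsto (fun n : ℕ => (n : ℂ) * w ^ (n - 1)) atTop (𝓝 0) := by
    rw [← tendsto_add_atTop_iff_nat 1]
    rw [tendsto_zero_iff_norm_tendsto_zero]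
    have h3 := tendsto_self_mul_const_pow_of_lt_one (norm_nonneg w) hw
    have h4 := tendsto_pow_atTop_nhds_zero_of_lt_one (norm_nonneg w) hw
    have h5 := h3.add h4
    rw [add_zero] at h5
    refine h5.congr fun n => ?_
    rw [norm_mul, norm_pow, Nat.add_sub_cancel, Complex.norm_natCast]
    push_cast
    ring
  have h3 := (h1.mul_const z1).add ((h2.mul_const w1).mul_const z0)
  simpa using h3

section main

variable {ι : Type} [Fintype ι] [DecidableEq ι] (t : ι → ℂ)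

/-- the polynomial with the roots `t i`, `i ≠ j`, and `conj (t i)` -/
noncomputable def K (j : ι) : ℂ[X] :=
  (∏ i, (X - C (starRingEnd ℂ (t i)))) * ∏ i ∈ Finset.univ.erase j, (X - C (t i))

theorem K_eval_ne_zero (hinj : Function.Injective t) (him : ∀ j, 0 < (t j).im) (j : ι) :
    (K t j).eval (t j) ≠ 0 := by
  rw [K, eval_mul, eval_prod, eval_prod]
  refine mul_ne_zero (Finset.prod_ne_zero_iff.2 fun i _ => ?_) (Finset.prod_ne_zero_iff.2 fun i hi => ?_)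
  · rw [eval_sub, eval_X, eval_C]
    intro h
    have h1 := congrArg Complex.im (sub_eq_zero.1 h)
    rw [Complex.conj_im] at h1
    linarith [him i, him j]
  · rw [eval_sub, eval_X, eval_C]
    intro h
    exact (Finset.mem_erase.1 hi).1 (hinj (sub_eq_zero.1 h)).symm

theorem dvd_K {i j : ι} (h : i ≠ j) : (X - C (t j)) ∣ K t i :=
  Dvd.dvd.mul_left (Finset.dvd_prod_of_mem (fun i => X - C (t i))
    (Finset.mem_erase.2 ⟨h.symm, Finset.mem_univ j⟩)) _

theorem dvd_K' (i j : ι) : (X - C (starRingEnd ℂ (t j))) ∣ K t i :=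
  Dvd.dvd.mul_right (Finset.dvd_prod_of_mem (fun i => X - C (starRingEnd ℂ (t i)))
    (Finset.mem_univ j)) _

theorem dvd_iff_mk (A B D : ℂ[X]) : D ∣ A - B ↔
    Ideal.Quotient.mk (Ideal.span {D}) A = Ideal.Quotient.mk (Ideal.span {D}) B := by
  rw [Ideal.Quotient.mk_eq_mk_iff_sub_mem, Ideal.mem_span_singleton]

theorem main (hinj : Function.Injective t)
    (him : ∀ j, 0 < (t j).im) (N : ℕ) (f f2 : ℝ[X]) (ζ : ℂ) (hζ : ζ.im < 0) (hf : f = quad ζ * f2)
    (h0 : f ≠ 0) (hnn : ∀ x, 0 ≤ f.eval x) (hN : f.natDegree ≤ 2 * N) (ρ : ι → ℂ)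
    (hρ : ∀ j, ρ j ^ 2 = (toC f).eval (t j)) :
    ∃ (l : ℕ) (G : ℝ[X]), G.natDegree ≤ N * (2 * l + 1) ∧
      (∀ x, G.eval x ^ 2 ≤ f.eval x ^ (2 * l + 1)) ∧
      (∀ j, (toC G).eval (t j) = (toC f).eval (t j) ^ l * ρ j) ∧
      ∀ j, (X - C (t j)) ^ 2 ∣ toC (f ^ (2 * l + 1) - G ^ 2) := by
  have h20 : f2 ≠ 0 := by
    rintro rfl
    exact h0 (by rw [hf, mul_zero])
  obtain ⟨g2, hg2deg, hg2, hg2t⟩ := exists_half h20 (nonneg_of_mul hf hnn)
  have hdeg : 1 + g2.natDegree ≤ N := by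
    have h := hN
    rw [hf, (quad_monic ζ).natDegree_mul' h20, natDegree_quad] at h
    omega
  set g : ℂ[X] := (X - C ζ) * g2 with hg
  have hcjg : cj g = (X - C (starRingEnd ℂ ζ)) * cj g2 := by
    rw [hg, cj, Polynomial.map_mul, Polynomial.map_sub, map_X, map_C]
  have hfg : toC f = g * cj g := by
    have h1 := toC_quad ζ
    rw [hcjg, hf, toC, Polynomial.map_mul]
    rw [toC] at h1 hg2
    rw [h1, hg2, hg]
    ring
  have hgt : ∀ j, g.eval (t j) ≠ 0 ∧ ‖(cj g).eval (t j)‖ < ‖g.eval (t j)‖ := by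
    intro j
    obtain ⟨h1, h2⟩ := hg2t (t j) (him j)
    have h3 : ‖t j - starRingEnd ℂ ζ‖ < ‖t j - ζ‖ := norm_sub_conj_lt (him j) hζ
    have h4 : 0 < ‖g2.eval (t j)‖ := norm_pos_iff.2 h1
    have h5 : 0 < ‖t j - ζ‖ := (norm_nonneg _).trans_lt h3
    refine ⟨?_, ?_⟩
    · rw [hg, eval_mul, eval_sub, eval_X, eval_C]
      exact mul_ne_zero (norm_pos_iff.1 h5) h1
    · rw [hcjg, hg, eval_mul, eval_sub, eval_X, eval_C, eval_mul, eval_sub, eval_X, eval_C, norm_mul,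
        norm_mul]
      calc ‖t j - starRingEnd ℂ ζ‖ * ‖(cj g2).eval (t j)‖
          ≤ ‖t j - starRingEnd ℂ ζ‖ * ‖g2.eval (t j)‖ := by gcongr
        _ < ‖t j - ζ‖ * ‖g2.eval (t j)‖ := by gcongr
  -- a bound for the degrees
  obtain ⟨L, hL⟩ : ∃ L, ∀ j, (K t j).natDegree ≤ L :=
    ⟨Finset.univ.sup fun j => (K t j).natDegree,
      fun j => Finset.le_sup (f := fun j => (K t j).natDegree) (Finset.mem_univ j)⟩
  -- the jets
  choose R hR hR' using fun j => exists_jet (toC f) (t j) (ρ j) (hρ j)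
  choose Inv hInv using fun j => exists_inv (hgt j).1
  have hU : ∀ j, (g2 ^ (2 * L + 1) * K t j ^ 2).eval (t j) ≠ 0 := by
    intro j
    rw [eval_mul, eval_pow, eval_pow]
    exact mul_ne_zero (pow_ne_zero _ (hg2t (t j) (him j)).1)
      (pow_ne_zero _ (K_eval_ne_zero t hinj him j))
  choose V hV using fun j => exists_inv (hU j)
  obtain ⟨W, hW⟩ : ∃ W : ι → ℂ[X], ∀ j, W j = cj g * Inv j := ⟨_, fun _ => rfl⟩
  obtain ⟨Z, hZ⟩ : ∃ Z : ι → ℂ[X], ∀ j, Z j = W j ^ (L + 1) * g ^ (2 * L) * R j * V j :=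
    ⟨_, fun _ => rfl⟩
  have hWt : ∀ j, ‖(W j).eval (t j)‖ < 1 := by
    intro j
    obtain ⟨h1, h2⟩ := hgt j
    have h3 : g.eval (t j) * (Inv j).eval (t j) = 1 := by
      obtain ⟨c, hc⟩ := hInv j
      have h4 := congrArg (eval (t j)) hc
      simp only [eval_sub, eval_mul, eval_one, eval_pow, eval_X, eval_C, sub_self] at h4
      linear_combination h4
    have h4 : 0 < ‖g.eval (t j)‖ := norm_pos_iff.2 h1
    rw [hW, eval_mul, norm_mul]
    have h5 : ‖g.eval (t j)‖ * ‖(Inv j).eval (t j)‖ = 1 := by rw [← norm_mul, h3, norm_one]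
    have h6 : 0 < ‖(Inv j).eval (t j)‖ := by
      rcases (norm_nonneg ((Inv j).eval (t j))).lt_or_eq with h | h
      · exact h
      · rw [← h, mul_zero] at h5
        exact absurd h5 zero_ne_one
    calc ‖(cj g).eval (t j)‖ * ‖(Inv j).eval (t j)‖ < ‖g.eval (t j)‖ * ‖(Inv j).eval (t j)‖ := by
          gcongr
      _ = 1 := h5
  have hα : ∀ j, Tendsto (fun n : ℕ => (W j ^ n * Z j).eval (t j)) atTop (𝓝 0) := by
    intro j
    have h := (tendsto_pow_atTop_nhds_zero_of_norm_lt_one (hWt j)).mul_const ((Z j).eval (t j))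
    simpa using h
  have hβ : ∀ j, Tendsto (fun n : ℕ => (derivative (W j ^ n * Z j)).eval (t j)) atTop (𝓝 0) := by
    intro j
    have h := tendsto_jet (hWt j) ((Z j).eval (t j)) ((derivative (Z j)).eval (t j))
      ((derivative (W j)).eval (t j))
    refine h.congr fun n => ?_
    rw [derivative_mul, derivative_pow]
    simp only [eval_add, eval_mul, eval_pow, eval_natCast, map_natCast]
    ring
  -- the bounds on the real line
  have hT0 : ∀ j, (K t j ^ 2).natDegree ≤ 2 * L + 1 := fun j =>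
    (natDegree_pow_le_of_le 2 (hL j)).trans (by omega)
  have hT1 : ∀ j, ((X - C (t j)) * K t j ^ 2).natDegree ≤ 2 * L + 1 := fun j =>
    (natDegree_mul_le_of_le (natDegree_X_sub_C_le _) (natDegree_pow_le_of_le 2 (hL j))).trans
      (by omega)
  choose B0 hB0 hB0' using fun j => bound _ _ (hT0 j) hζ
  choose B1 hB1 hB1' using fun j => bound _ _ (hT1 j) hζ
  obtain ⟨B, hB⟩ : ∃ B : ℝ, B = ∑ j, (B0 j + B1 j) + 1 := ⟨_, rfl⟩
  have hBpos : 0 < B := by
    have h1 : 0 ≤ ∑ j, (B0 j + B1 j) := Finset.sum_nonneg fun j _ => (add_pos (hB0 j) (hB1 j)).le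
    linarith
  obtain ⟨n, hn⟩ : ∃ n : ℕ, ∀ j, ‖(W j ^ n * Z j).eval (t j)‖ ≤ 1 / (2 * B) ∧
      ‖(derivative (W j ^ n * Z j)).eval (t j)‖ ≤ 1 / (2 * B) := by
    have hε : 0 < 1 / (2 * B) := by positivity
    have h1 : ∀ᶠ n : ℕ in atTop, ∀ j, ‖(W j ^ n * Z j).eval (t j)‖ ≤ 1 / (2 * B) ∧
        ‖(derivative (W j ^ n * Z j)).eval (t j)‖ ≤ 1 / (2 * B) := by
      rw [eventually_all]
      intro j
      have h2 := (tendsto_zero_iff_norm_tendsto_zero.1 (hα j)).eventually_le_const hε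
      have h3 := (tendsto_zero_iff_norm_tendsto_zero.1 (hβ j)).eventually_le_const hε
      filter_upwards [h2, h3] with n h4 h5
      exact ⟨h4, h5⟩
    exact h1.exists
  obtain ⟨A, hA⟩ : ∃ A : ι → ℂ[X], ∀ j, A j = C ((W j ^ n * Z j).eval (t j)) +
      C ((derivative (W j ^ n * Z j)).eval (t j)) * (X - C (t j)) := ⟨_, fun _ => rfl⟩
  obtain ⟨P, hP⟩ : ∃ P : ℂ[X], P = g ^ (2 * (n + 1)) * g2 ^ (2 * L + 1) * ∑ j, A j * K t j ^ 2 :=
    ⟨_, rfl⟩
  have hPdeg : P.natDegree ≤ N * (2 * (n + L + 1) + 1) := by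
    have hA1 : ∀ j, (A j).natDegree ≤ 1 := by
      intro j
      rw [hA]
      refine (natDegree_add_le _ _).trans (max_le ?_ ?_)
      · rw [natDegree_C]
        exact zero_le_one
      · exact (natDegree_C_mul_le _ _).trans (natDegree_X_sub_C_le _)
    have h1 : (∑ j, A j * K t j ^ 2).natDegree ≤ 1 + 2 * L :=
      natDegree_sum_le_of_forall_le _ _ fun j _ =>
        natDegree_mul_le_of_le (hA1 j) (natDegree_pow_le_of_le 2 (hL j))
    have hg1 : g.natDegree ≤ 1 + g2.natDegree := by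
      rw [hg]
      exact natDegree_mul_le_of_le (natDegree_X_sub_C_le _) le_rfl
    have h2 : P.natDegree ≤ 2 * (n + 1) * (1 + g2.natDegree) + (2 * L + 1) * g2.natDegree +
        (1 + 2 * L) := by
      rw [hP]
      exact natDegree_mul_le_of_le (natDegree_mul_le_of_le (natDegree_pow_le_of_le _ hg1)
        (natDegree_pow_le_of_le _ le_rfl)) h1
    have h3 : 2 * (n + 1) * (1 + g2.natDegree) + (2 * L + 1) * g2.natDegree + (1 + 2 * L) =
        (1 + g2.natDegree) * (2 * (n + L + 1) + 1) := by ring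
    rw [h3] at h2
    exact h2.trans (Nat.mul_le_mul_right _ hdeg)
  have hnorm : ∀ x : ℝ, f.eval x = ‖g.eval (x : ℂ)‖ ^ 2 := by
    intro x
    have h1 : ((f.eval x : ℝ) : ℂ) = g.eval (x : ℂ) * starRingEnd ℂ (g.eval (x : ℂ)) := by
      rw [← eval_toC, hfg, eval_mul, eval_cj', Complex.conj_ofReal]
    rw [Complex.mul_conj, Complex.normSq_eq_norm_sq] at h1
    exact_mod_cast h1
  have hPx : ∀ x : ℝ, 2 * ‖P.eval (x : ℂ)‖ ≤ ‖g.eval (x : ℂ)‖ ^ (2 * (n + L + 1) + 1) := by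
    intro x
    have h1 : ‖(∑ j, A j * K t j ^ 2).eval (x : ℂ)‖ ≤ 1 / 2 * ‖(x : ℂ) - ζ‖ ^ (2 * L + 1) := by
      rw [eval_finsetSum]
      refine (norm_sum_le _ _).trans ?_
      have h2 : ∀ j ∈ Finset.univ, ‖(A j * K t j ^ 2).eval (x : ℂ)‖ ≤
          1 / (2 * B) * (B0 j + B1 j) * ‖(x : ℂ) - ζ‖ ^ (2 * L + 1) := by
        intro j _
        have h3 : (A j * K t j ^ 2).eval (x : ℂ) =
            (W j ^ n * Z j).eval (t j) * (K t j ^ 2).eval (x : ℂ) +
              (derivative (W j ^ n * Z j)).eval (t j) *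
                ((X - C (t j)) * K t j ^ 2).eval (x : ℂ) := by
          rw [hA]
          simp only [eval_add, eval_mul, eval_C]
          ring
        rw [h3]
        refine (norm_add_le _ _).trans ?_
        rw [norm_mul, norm_mul]
        have h4 := mul_le_mul (hn j).1 (hB0' j x) (norm_nonneg _) (by positivity)
        have h5 := mul_le_mul (hn j).2 (hB1' j x) (norm_nonneg _) (by positivity)
        linarith
      refine (Finset.sum_le_sum h2).trans ?_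
      rw [← Finset.sum_mul, ← Finset.mul_sum]
      refine mul_le_mul_of_nonneg_right ?_ (by positivity)
      rw [one_div, one_div, ← div_eq_inv_mul, div_le_iff₀ (by positivity)]
      have h6 : ∑ j, (B0 j + B1 j) ≤ B := by rw [hB]; linarith
      linarith
    have h2 : ‖P.eval (x : ℂ)‖ = ‖g.eval (x : ℂ)‖ ^ (2 * (n + 1)) * ‖g2.eval (x : ℂ)‖ ^ (2 * L + 1) *
        ‖(∑ j, A j * K t j ^ 2).eval (x : ℂ)‖ := by
      rw [hP, eval_mul, eval_mul, eval_pow, eval_pow, norm_mul, norm_mul, norm_pow, norm_pow]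
    have h3 : ‖g.eval (x : ℂ)‖ = ‖(x : ℂ) - ζ‖ * ‖g2.eval (x : ℂ)‖ := by
      rw [hg, eval_mul, eval_sub, eval_X, eval_C, norm_mul]
    calc 2 * ‖P.eval (x : ℂ)‖ ≤ 2 * (‖g.eval (x : ℂ)‖ ^ (2 * (n + 1)) *
          ‖g2.eval (x : ℂ)‖ ^ (2 * L + 1) * (1 / 2 * ‖(x : ℂ) - ζ‖ ^ (2 * L + 1))) := by
          rw [h2]
          gcongr
      _ = ‖g.eval (x : ℂ)‖ ^ (2 * (n + 1)) * (‖(x : ℂ) - ζ‖ * ‖g2.eval (x : ℂ)‖) ^ (2 * L + 1) := by
          rw [mul_pow]
          ring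
      _ = ‖g.eval (x : ℂ)‖ ^ (2 * (n + L + 1) + 1) := by
          rw [← h3, ← pow_add]
          congr 1
          ring
  -- the real polynomial
  obtain ⟨u, v, hu, -, huv⟩ := exists_re_im P
  have hG : toC (C 2 * u) = P + cj P := by
    have h := congrArg cj huv
    have h1 := cj_toC u
    have h2 := cj_toC v
    rw [cj] at h1 h2
    have h3 : cj (toC u + C Complex.I * toC v) = toC u - C Complex.I * toC v := by
      rw [cj, Polynomial.map_add, Polynomial.map_mul, h1, h2, map_C, Complex.conj_I, C_neg]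
      ring
    rw [h3] at h
    rw [h]
    conv_rhs => rw [huv]
    rw [toC, Polynomial.map_mul, map_C]
    rw [show ((algebraMap ℝ ℂ) 2) = 2 by simp, show (C (2 : ℂ) : ℂ[X]) = 2 from rfl]
    ring
  -- the congruences
  have hcong : ∀ j, (X - C (t j)) ^ 2 ∣ toC (C 2 * u) - toC f ^ (n + L + 1) * R j := by
    intro j
    have hcjP : (X - C (t j)) ^ 2 ∣ cj P := by
      have h1 : (X - C (starRingEnd ℂ (t j))) ^ 2 ∣ P := by
        rw [hP]
        refine Dvd.dvd.mul_left (Finset.dvd_sum fun i _ => Dvd.dvd.mul_left ?_ _) _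
        exact pow_dvd_pow_of_dvd (dvd_K' t i j) 2
      have h2 := Polynomial.map_dvd (starRingEnd ℂ) h1
      rwa [Polynomial.map_pow, Polynomial.map_sub, map_X, map_C, Complex.conj_conj] at h2
    obtain ⟨φ, hφ⟩ : ∃ φ : ℂ[X] →+* ℂ[X] ⧸ Ideal.span {(X - C (t j)) ^ 2},
        φ = Ideal.Quotient.mk _ := ⟨_, rfl⟩
    have hmk : ∀ A B : ℂ[X], (X - C (t j)) ^ 2 ∣ A - B ↔ φ A = φ B := by
      intro A B
      rw [hφ]
      exact dvd_iff_mk A B _
    have hmk0 : ∀ A : ℂ[X], (X - C (t j)) ^ 2 ∣ A ↔ φ A = 0 := by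
      intro A
      rw [← map_zero φ, ← hmk, sub_zero]
    have e1 : φ g * φ (Inv j) = 1 := by
      have := (hmk _ _).1 (hInv j)
      rwa [map_mul, map_one] at this
    have e2 : (φ g2 ^ (2 * L + 1) * φ (K t j) ^ 2) * φ (V j) = 1 := by
      have := (hmk _ _).1 (hV j)
      rwa [map_mul, map_mul, map_pow, map_pow, map_one] at this
    have e3 : φ (A j) = φ (W j) ^ n * φ (Z j) := by
      have := (hmk _ _).1 (taylor_dvd (W j ^ n * Z j) (t j))
      rw [hA, ← this, map_mul, map_pow]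
    have e4 : φ (∑ i, A i * K t i ^ 2) = φ (A j) * φ (K t j) ^ 2 := by
      rw [map_sum, Finset.sum_eq_single j]
      · rw [map_mul, map_pow]
      · intro i _ hi
        rw [map_mul, (hmk0 _).1 (pow_dvd_pow_of_dvd (dvd_K t hi) 2), mul_zero]
      · intro h
        exact absurd (Finset.mem_univ j) h
    rw [hmk, hG, map_add, (hmk0 _).1 hcjP, add_zero, hP, map_mul, map_mul, map_pow, map_pow, e4, e3,
      hZ, hW, hfg]
    simp only [map_mul, map_pow]
    have e5 : φ g ^ (2 * (n + 1)) * φ g2 ^ (2 * L + 1) *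
        ((φ (cj g) * φ (Inv j)) ^ n * ((φ (cj g) * φ (Inv j)) ^ (L + 1) * φ g ^ (2 * L) *
          φ (R j) * φ (V j)) * φ (K t j) ^ 2) =
        (φ g * φ (Inv j)) ^ (n + L + 1) * ((φ g2 ^ (2 * L + 1) * φ (K t j) ^ 2) * φ (V j)) *
          ((φ g * φ (cj g)) ^ (n + L + 1) * φ (R j)) := by
      ring
    rw [e5, e1, e2]
    ring
  refine ⟨n + L + 1, C 2 * u, ?_, ?_, ?_, ?_⟩
  · exact (natDegree_C_mul_le _ _).trans (hu.trans hPdeg)
  · intro x
    have h1 : u.eval x = (P.eval (x : ℂ)).re := by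
      rw [huv, eval_add, eval_mul, eval_C, eval_toC, eval_toC]
      simp
    have h2 : |u.eval x| ≤ ‖P.eval (x : ℂ)‖ := by
      rw [h1]
      exact Complex.abs_re_le_norm _
    have h3 : |2 * u.eval x| ≤ ‖g.eval (x : ℂ)‖ ^ (2 * (n + L + 1) + 1) := by
      rw [abs_mul, abs_two]
      linarith [hPx x]
    rw [eval_mul, eval_C, hnorm, ← sq_abs, ← pow_mul, mul_comm 2 (2 * (n + L + 1) + 1), pow_mul]
    exact pow_le_pow_left₀ (abs_nonneg _) h3 2
  · intro j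
    obtain ⟨c, hc⟩ := hcong j
    have h4 := congrArg (eval (t j)) hc
    rw [eval_sub, eval_mul (p := toC f ^ (n + L + 1)), eval_pow, hR] at h4
    rw [sub_eq_iff_eq_add] at h4
    rw [h4]
    simp
  · intro j
    have h1 : toC ((f ^ (2 * (n + L + 1) + 1) - (C 2 * u) ^ 2)) =
        (toC f ^ (2 * (n + L + 1) + 1) - (toC f ^ (n + L + 1) * R j) ^ 2) -
          (toC (C 2 * u) - toC f ^ (n + L + 1) * R j) *
            (toC (C 2 * u) + toC f ^ (n + L + 1) * R j) := by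
      rw [toC, Polynomial.map_sub, Polynomial.map_pow, Polynomial.map_pow]
      ring
    rw [h1]
    exact dvd_sub (hR' j _ (by omega)) (Dvd.dvd.mul_right (hcong j) _)

end main

end Pool.Agent.R863.Stub
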