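import Mathlib
import Pool.Agent.R863.Stub.Interp

set_option autoImplicit false

open Polynomial Filter Topology

namespace Pool.Agent.R863.Stub

theorem coprime_sub {a b : ℂ} (h : a ≠ b) : IsCoprime (X - C a : ℂ[X]) (X - C b) :=
  isCoprime_X_sub_C_of_isUnit_sub (sub_ne_zero.2 h).isUnit

section squares

variable {ι : Type} [Fintype ι] [DecidableEq ι] (t : ι → ℂ)

theorem prod_quad_dvd (hinj : Function.Injective t) (him : ∀ j, 0 < (t j).im) (H : ℝ[X])
    (hH : ∀ j, (X - C (t j)) ^ 2 ∣ toC H) : (∏ j, quad (t j)) ^ 2 ∣ H := by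
  have hne : ∀ i j, t i ≠ starRingEnd ℂ (t j) := by
    intro i j h
    have h1 := congrArg Complex.im h
    rw [Complex.conj_im] at h1
    linarith [him i, him j]
  rw [← Polynomial.map_dvd_map' (algebraMap ℝ ℂ), Polynomial.map_pow, Polynomial.map_prod,
    ← Finset.prod_pow]
  refine Finset.prod_dvd_of_coprime ?_ ?_
  · intro i _ j _ hij
    have h1 : t i ≠ t j := fun h => hij (hinj h)
    have h2 : starRingEnd ℂ (t i) ≠ starRingEnd ℂ (t j) := fun h =>
      h1 ((starRingEnd ℂ).injective h)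
    have e1 := toC_quad (t i)
    have e2 := toC_quad (t j)
    rw [toC] at e1 e2
    change IsCoprime ((quad (t i)).map (algebraMap ℝ ℂ) ^ 2) ((quad (t j)).map (algebraMap ℝ ℂ) ^ 2)
    rw [e1, e2]
    refine IsCoprime.pow ?_
    refine IsCoprime.mul_left (IsCoprime.mul_right ?_ ?_) (IsCoprime.mul_right ?_ ?_)
    · exact coprime_sub h1
    · exact coprime_sub (hne i j)
    · exact coprime_sub (hne j i).symm
    · exact coprime_sub h2
  · intro j _
    have e1 := toC_quad (t j)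
    rw [toC] at e1
    rw [e1, mul_pow]
    refine IsCoprime.mul_dvd ?_ (hH j) ?_
    · exact IsCoprime.pow (coprime_sub (hne j j))
    · have h1 := Polynomial.map_dvd (starRingEnd ℂ) (hH j)
      have h2 := cj_toC H
      rw [cj] at h2
      rwa [h2, Polynomial.map_pow, Polynomial.map_sub, map_X, map_C] at h1

theorem squares (hinj : Function.Injective t)
    (him : ∀ j, 0 < (t j).im) (N : ℕ) (f f2 : ℝ[X]) (ζ : ℂ) (hζ : ζ.im < 0) (hf : f = quad ζ * f2)
    (h0 : f ≠ 0) (hnn : ∀ x, 0 ≤ f.eval x) (hN : f.natDegree ≤ 2 * N) (ρ : ι → ℂ)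
    (hρ : ∀ j, ρ j ^ 2 = (toC f).eval (t j)) :
    ∃ (l : ℕ) (G u v : ℝ[X]), G.natDegree ≤ N * (2 * l + 1) ∧
      ((∏ j, quad (t j)) * u).natDegree ≤ N * (2 * l + 1) ∧
      ((∏ j, quad (t j)) * v).natDegree ≤ N * (2 * l + 1) ∧
      f ^ (2 * l + 1) = G ^ 2 + ((∏ j, quad (t j)) * u) ^ 2 + ((∏ j, quad (t j)) * v) ^ 2 ∧
      ∀ j, (toC G).eval (t j) = (toC f).eval (t j) ^ l * ρ j := by
  obtain ⟨l, G, hGdeg, hGx, hGt, hdvd⟩ := main t hinj him N f f2 ζ hζ hf h0 hnn hN ρ hρ
  obtain ⟨S, hS⟩ := prod_quad_dvd t hinj him _ hdvd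
  have hQ0 : (∏ j, quad (t j)) ≠ 0 := Finset.prod_ne_zero_iff.2 fun j _ => (quad_monic _).ne_zero
  by_cases hS0 : S = 0
  · refine ⟨l, G, 0, 0, hGdeg, by simp, by simp, ?_, hGt⟩
    rw [hS0, mul_zero] at hS
    rw [sub_eq_zero.1 hS]
    ring
  · have hSx : ∀ x, 0 ≤ S.eval x := by
      intro x
      have h1 : 0 ≤ (f ^ (2 * l + 1) - G ^ 2).eval x := by
        rw [eval_sub, eval_pow, eval_pow]
        linarith [hGx x]
      rw [hS, eval_mul, eval_pow] at h1
      have h2 : (∏ j, quad (t j)).eval x ≠ 0 := by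
        rw [eval_prod]
        refine Finset.prod_ne_zero_iff.2 fun j _ => ?_
        rw [eval_quad]
        have := him j
        positivity
      exact nonneg_of_mul_nonneg_right h1 (by positivity)
    obtain ⟨h, hh1, hh2, -⟩ := exists_half hS0 hSx
    obtain ⟨u, v, hu, hv, huv⟩ := exists_re_im h
    have hSuv : S = u ^ 2 + v ^ 2 := by
      apply toC_injective
      rw [hh2, huv, mul_cj]
    have hdeg : 2 * (∏ j, quad (t j)).natDegree + S.natDegree ≤ 2 * (N * (2 * l + 1)) := by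
      have h1 := congrArg natDegree hS
      rw [natDegree_mul (pow_ne_zero 2 hQ0) hS0, natDegree_pow] at h1
      rw [← h1]
      refine (natDegree_sub_le _ _).trans (max_le ?_ ?_)
      · refine (natDegree_pow_le_of_le _ hN).trans (le_of_eq ?_)
        ring
      · exact natDegree_pow_le_of_le 2 hGdeg
    refine ⟨l, G, u, v, hGdeg, ?_, ?_, ?_, hGt⟩
    · refine natDegree_mul_le.trans ?_
      omega
    · refine natDegree_mul_le.trans ?_
      omega
    · rw [hSuv] at hS
      linear_combination hS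

end squares

/-- A nonnegative polynomial has a nonreal root or is the square of a polynomial with real roots. -/
theorem dichotomy {f : ℝ[X]} (h0 : f ≠ 0) (hf : ∀ x, 0 ≤ f.eval x) :
    (∃ (ζ : ℂ) (f2 : ℝ[X]), ζ.im < 0 ∧ f = quad ζ * f2) ∨
      ∃ (d : ℝ) (s : Multiset ℝ), f = (C d * (s.map fun a => X - C a).prod) ^ 2 := by
  obtain ⟨c, s, hc, hs, hcard, hprod⟩ := factor f.natDegree f le_rfl h0 hf
  by_cases h : ∃ a ∈ s, a.im < 0
  · left
    obtain ⟨a, ha, him⟩ := h
    obtain ⟨s', rfl⟩ := Multiset.exists_cons_of_mem ha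
    refine ⟨a, C c * (s'.map quad).prod, him, ?_⟩
    conv_lhs => rw [hprod]
    rw [Multiset.map_cons, Multiset.prod_cons]
    ring
  · right
    push Not at h
    refine ⟨Real.sqrt c, s.map Complex.re, ?_⟩
    have h1 : ∀ a ∈ s, quad a = (X - C a.re) ^ 2 := by
      intro a ha
      have him : a.im = 0 := le_antisymm (hs a ha) (h a ha)
      unfold quad
      rw [him]
      simp only [C_add, C_mul, C_pow, C_0]
      rw [show (C (2 : ℝ) : ℝ[X]) = 2 from rfl]
      ring
    conv_lhs => rw [hprod]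
    rw [Multiset.map_congr rfl h1, Multiset.map_map, mul_pow, ← C_pow, Real.sq_sqrt hc.le,
      Multiset.prod_map_pow]
    rfl

end Pool.Agent.R863.Stub
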