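import Mathlib
import Pool.Agent.R863.Stub.Squares

set_option autoImplicit false

open Polynomial

namespace Pool.Agent.R863.Stub

/-- the parametrization of the curve -/
noncomputable def v : Fin 3 → ℝ[X] := ![X ^ 2 + C (5 / 2), X ^ 3 + C 3 * X, X ^ 4 - C (17 / 2)]

/-- forms on the curve as polynomials in one variable -/
noncomputable abbrev pull : MvPolynomial (Fin 3) ℝ →ₐ[ℝ] ℝ[X] := MvPolynomial.aeval v

/-- the complex point of the cone with the parameter `z` -/
noncomputable def vz (z : ℂ) : Fin 3 → ℂ := fun i => (toC (v i)).eval z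

theorem aeval_mul_const {A : Type} [CommRing A] [Algebra ℝ A] {m : ℕ} {P : MvPolynomial (Fin 3) ℝ}
    (hP : P.IsHomogeneous m) (a : Fin 3 → A) (u : A) :
    MvPolynomial.aeval (fun i => a i * u) P = MvPolynomial.aeval a P * u ^ m := by
  rw [MvPolynomial.aeval_def, MvPolynomial.aeval_def, MvPolynomial.eval₂_eq',
    MvPolynomial.eval₂_eq', Finset.sum_mul]
  refine Finset.sum_congr rfl fun d hd => ?_
  have h := hP.degree_eq_sum_deg_support hd
  have h2 : ∑ i, d i = m := by
    rw [h]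
    exact (Finsupp.sum_fintype d (fun _ e => e) fun _ => rfl).symm
  have h1 : ∏ i, (a i * u) ^ d i = (∏ i, a i ^ d i) * u ^ m := by
    rw [← h2, ← Finset.prod_pow_eq_pow_sum, ← Finset.prod_mul_distrib]
    refine Finset.prod_congr rfl fun i _ => mul_pow _ _ _
  rw [h1, mul_assoc]

theorem eval_pull (P : MvPolynomial (Fin 3) ℝ) (z : ℂ) :
    (toC (pull P)).eval z = MvPolynomial.aeval (vz z) P := by
  have h : ((Polynomial.aeval z).comp pull : MvPolynomial (Fin 3) ℝ →ₐ[ℝ] ℂ) =
      MvPolynomial.aeval (vz z) := by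
    refine MvPolynomial.algHom_ext fun i => ?_
    rw [AlgHom.comp_apply, MvPolynomial.aeval_X, MvPolynomial.aeval_X, vz, toC, eval_map_algebraMap]
  rw [← h, toC, eval_map_algebraMap]
  rfl

theorem natDegree_v (i : Fin 3) : (v i).natDegree ≤ 4 := by
  fin_cases i
  · simp only [v, Fin.zero_eta, Matrix.cons_val_zero]
    compute_degree
    norm_num
  · simp only [v, Fin.mk_one, Matrix.cons_val_one, Matrix.cons_val_zero]
    compute_degree
    norm_num
  · simp only [v, Fin.reduceFinMk, Matrix.cons_val]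
    compute_degree

theorem natDegree_pull {m : ℕ} {P : MvPolynomial (Fin 3) ℝ} (hP : P.IsHomogeneous m) :
    (pull P).natDegree ≤ 4 * m := by
  rw [pull, MvPolynomial.aeval_def, MvPolynomial.eval₂_eq']
  refine natDegree_sum_le_of_forall_le _ _ fun d hd => ?_
  have h := hP.degree_eq_sum_deg_support hd
  have h2 : ∑ i, d i = m := by
    rw [h]
    exact (Finsupp.sum_fintype d (fun _ e => e) fun _ => rfl).symm
  refine (natDegree_C_mul_le _ _).trans ?_
  refine (natDegree_prod_le _ _).trans ?_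
  rw [← h2, Finset.mul_sum]
  refine Finset.sum_le_sum fun i _ => ?_
  refine natDegree_pow_le.trans ?_
  rw [mul_comm]
  exact Nat.mul_le_mul_right _ (natDegree_v i)

/-- the point `i √3` -/
noncomputable def pp : ℂ := (Real.sqrt 3 : ℂ) * Complex.I

theorem pp_sq : pp ^ 2 = -3 := by
  rw [pp, mul_pow, Complex.I_sq, ← Complex.ofReal_pow, Real.sq_sqrt (by norm_num)]
  push_cast
  ring

theorem vz_I : vz Complex.I = ![3 / 2, 2 * Complex.I, -15 / 2] := by
  have h2 : Complex.I ^ 2 = -1 := Complex.I_sq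
  have h3 : Complex.I ^ 3 = -Complex.I := by rw [pow_succ, h2]; ring
  have h4 : Complex.I ^ 4 = 1 := Complex.I_pow_four
  funext i
  fin_cases i
  · simp [vz, v]
    norm_num
  · simp [vz, v, h3]
    ring
  · simp [vz, v, h4]
    norm_num

theorem vz_two_I : vz (2 * Complex.I) = fun i => vz Complex.I i * (-1) := by
  have h2 : Complex.I ^ 2 = -1 := Complex.I_sq
  have h3 : Complex.I ^ 3 = -Complex.I := by rw [pow_succ, h2]; ring
  have h4 : Complex.I ^ 4 = 1 := Complex.I_pow_four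
  rw [vz_I]
  funext i
  fin_cases i
  · simp [vz, v, mul_pow, h2]
    norm_num
  · simp [vz, v, mul_pow, h3]
    ring
  · simp [vz, v, mul_pow, h4]
    norm_num

theorem vz_pp : vz pp = fun i => ((![-1 / 2, 0, 1 / 2] : Fin 3 → ℝ) i : ℂ) := by
  have h2 := pp_sq
  have h3 : pp ^ 3 = -3 * pp := by rw [pow_succ, h2]
  have h4 : pp ^ 4 = 9 := by
    have : pp ^ 4 = (pp ^ 2) ^ 2 := by ring
    rw [this, h2]; norm_num
  funext i
  fin_cases i
  · simp [vz, v, h2]
    norm_num
  · simp [vz, v, h3]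
  · simp [vz, v, h4]
    norm_num

theorem aeval_ofReal (a : Fin 3 → ℝ) (P : MvPolynomial (Fin 3) ℝ) :
    MvPolynomial.aeval (fun i => ((a i : ℝ) : ℂ)) P = ((MvPolynomial.eval a P : ℝ) : ℂ) := by
  have h : (MvPolynomial.aeval (fun i => ((a i : ℝ) : ℂ)) : MvPolynomial (Fin 3) ℝ →ₐ[ℝ] ℂ) =
      (Algebra.ofId ℝ ℂ).comp (MvPolynomial.aeval a) := by
    refine MvPolynomial.algHom_ext fun i => ?_
    rw [AlgHom.comp_apply, MvPolynomial.aeval_X, MvPolynomial.aeval_X]
    rfl
  rw [h, AlgHom.comp_apply]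
  rfl

/-- the gluing conditions -/
def Cond (G : ℝ[X]) : Prop :=
  (toC G).eval Complex.I = (toC G).eval (2 * Complex.I) ∧ ((toC G).eval pp).im = 0

theorem cond_pull {m : ℕ} {Q : MvPolynomial (Fin 3) ℝ} (hQ : Q.IsHomogeneous (2 * m)) :
    Cond (pull Q) := by
  constructor
  · rw [eval_pull, eval_pull, vz_two_I, aeval_mul_const hQ, pow_mul]
    norm_num
  · rw [eval_pull, vz_pp, aeval_ofReal, Complex.ofReal_im]

theorem Cond.sub {G H : ℝ[X]} (hG : Cond G) (hH : Cond H) : Cond (G - H) := by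
  constructor
  · rw [toC, Polynomial.map_sub, eval_sub, eval_sub, hG.1, hH.1]
  · rw [toC, Polynomial.map_sub, eval_sub, Complex.sub_im, hG.2, hH.2, sub_zero]

theorem Cond.smul {G : ℝ[X]} (hG : Cond G) (c : ℝ) : Cond (C c * G) := by
  constructor
  · rw [toC, Polynomial.map_mul, map_C, eval_mul, eval_mul, eval_C, eval_C, hG.1]
  · rw [toC, Polynomial.map_mul, map_C, eval_mul, eval_C, Complex.coe_algebraMap,
      Complex.im_ofReal_mul, hG.2, mul_zero]

/-- the quadratic form which is constant on the curve -/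
noncomputable def F₀ : MvPolynomial (Fin 3) ℝ :=
  MvPolynomial.C 7 * MvPolynomial.X 0 ^ 2 + MvPolynomial.C 2 * (MvPolynomial.X 0 * MvPolynomial.X 2) -
    MvPolynomial.C 2 * MvPolynomial.X 1 ^ 2

theorem homog_F₀ : F₀.IsHomogeneous 2 := by
  unfold F₀
  refine MvPolynomial.IsHomogeneous.sub (MvPolynomial.IsHomogeneous.add ?_ ?_) ?_
  · exact MvPolynomial.IsHomogeneous.C_mul ((MvPolynomial.isHomogeneous_X ℝ 0).pow 2) _
  · exact MvPolynomial.IsHomogeneous.C_mul
      ((MvPolynomial.isHomogeneous_X ℝ 0).mul (MvPolynomial.isHomogeneous_X ℝ 2)) _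
  · exact MvPolynomial.IsHomogeneous.C_mul ((MvPolynomial.isHomogeneous_X ℝ 1).pow 2) _

theorem pull_F₀ : pull F₀ = C (5 / 4) := by
  simp only [F₀, pull, map_sub, map_add, map_mul, map_pow, MvPolynomial.aeval_X,
    MvPolynomial.algHom_C, v, Matrix.cons_val_zero, Matrix.cons_val_one, Matrix.cons_val]
  have e1 : (algebraMap ℝ ℝ[X]) 7 = C 7 := rfl
  have e2 : (algebraMap ℝ ℝ[X]) 2 = C 2 := rfl
  rw [e1, e2]
  apply Polynomial.funext
  intro x
  simp only [eval_sub, eval_add, eval_mul, eval_pow, eval_C, eval_X]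
  ring

theorem exists_monic (m : ℕ) : ∀ j, 4 ≤ j → j ≤ 8 * m → ∃ Q : MvPolynomial (Fin 3) ℝ,
    Q.IsHomogeneous (2 * m) ∧ (pull Q).Monic ∧ (pull Q).natDegree = j := by
  have hX := fun i : Fin 3 => MvPolynomial.isHomogeneous_X ℝ i
  have p0 : pull (MvPolynomial.X 0) = X ^ 2 + C (5 / 2) := by simp [v]
  have p1 : pull (MvPolynomial.X 1) = X ^ 3 + C 3 * X := by simp [v]
  have p2 : pull (MvPolynomial.X 2) = X ^ 4 - C (17 / 2) := by simp [v]
  have m0 : (pull (MvPolynomial.X 0)).Monic := by rw [p0]; monicity!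
  have m1 : (pull (MvPolynomial.X 1)).Monic := by rw [p1]; monicity!
  have m2 : (pull (MvPolynomial.X 2)).Monic := by rw [p2]; monicity!
  have d0 : (pull (MvPolynomial.X 0)).natDegree = 2 := by rw [p0]; compute_degree!
  have d1 : (pull (MvPolynomial.X 1)).natDegree = 3 := by rw [p1]; compute_degree!
  have d2 : (pull (MvPolynomial.X 2)).natDegree = 4 := by rw [p2]; compute_degree!
  induction m with
  | zero => intro j h1 h2; omega
  | succ m ih =>
    intro j h1 h2
    by_cases h3 : j ≤ 8 * m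
    · obtain ⟨Q, hQ1, hQ2, hQ3⟩ := ih j h1 h3
      have h4 : pull (MvPolynomial.C (4 / 5) * F₀ * Q) = pull Q := by
        rw [map_mul, map_mul, pull_F₀, MvPolynomial.algHom_C]
        have e1 : (algebraMap ℝ ℝ[X]) (4 / 5) = C (4 / 5) := rfl
        rw [e1, ← C_mul]
        norm_num
      refine ⟨MvPolynomial.C (4 / 5) * F₀ * Q, ?_, ?_, ?_⟩
      · have h5 := (MvPolynomial.IsHomogeneous.C_mul homog_F₀ (4 / 5)).mul hQ1
        rwa [show 2 + 2 * m = 2 * (m + 1) by ring] at h5
      · rw [h4]; exact hQ2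
      · rw [h4]; exact hQ3
    · rcases Nat.eq_zero_or_pos m with rfl | hm
      · have h4 : j = 4 ∨ j = 5 ∨ j = 6 ∨ j = 7 ∨ j = 8 := by omega
        rcases h4 with rfl | rfl | rfl | rfl | rfl
        · exact ⟨MvPolynomial.X 0 * MvPolynomial.X 0, (hX 0).mul (hX 0), by
            rw [map_mul]; exact m0.mul m0, by rw [map_mul, m0.natDegree_mul m0, d0]⟩
        · exact ⟨MvPolynomial.X 0 * MvPolynomial.X 1, (hX 0).mul (hX 1), by
            rw [map_mul]; exact m0.mul m1, by rw [map_mul, m0.natDegree_mul m1, d0, d1]⟩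
        · exact ⟨MvPolynomial.X 1 * MvPolynomial.X 1, (hX 1).mul (hX 1), by
            rw [map_mul]; exact m1.mul m1, by rw [map_mul, m1.natDegree_mul m1, d1]⟩
        · exact ⟨MvPolynomial.X 1 * MvPolynomial.X 2, (hX 1).mul (hX 2), by
            rw [map_mul]; exact m1.mul m2, by rw [map_mul, m1.natDegree_mul m2, d1, d2]⟩
        · exact ⟨MvPolynomial.X 2 * MvPolynomial.X 2, (hX 2).mul (hX 2), by
            rw [map_mul]; exact m2.mul m2, by rw [map_mul, m2.natDegree_mul m2, d2]⟩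
      · by_cases h4 : 12 ≤ j
        · obtain ⟨Q, hQ1, hQ2, hQ3⟩ := ih (j - 8) (by omega) (by omega)
          refine ⟨MvPolynomial.X 2 * MvPolynomial.X 2 * Q, ?_, ?_, ?_⟩
          · have h5 := ((hX 2).mul (hX 2)).mul hQ1
            rwa [show 1 + 1 + 2 * m = 2 * (m + 1) by ring] at h5
          · rw [map_mul, map_mul]
            exact (m2.mul m2).mul hQ2
          · rw [map_mul, map_mul, (m2.mul m2).natDegree_mul hQ2, m2.natDegree_mul m2, d2, hQ3]
            omega
        · obtain ⟨Q, hQ1, hQ2, hQ3⟩ := ih (j - 4) (by omega) (by omega)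
          refine ⟨MvPolynomial.X 0 * MvPolynomial.X 0 * Q, ?_, ?_, ?_⟩
          · have h5 := ((hX 0).mul (hX 0)).mul hQ1
            rwa [show 1 + 1 + 2 * m = 2 * (m + 1) by ring] at h5
          · rw [map_mul, map_mul]
            exact (m0.mul m0).mul hQ2
          · rw [map_mul, map_mul, (m0.mul m0).natDegree_mul hQ2, m0.natDegree_mul m0, d0, hQ3]
            omega

theorem eq_C_of_cond {G : ℝ[X]} (hd : G.natDegree ≤ 3) (hG : Cond G) : G = C (G.coeff 0) := by
  have h1 : toC G = C ((G.coeff 0 : ℝ) : ℂ) + C ((G.coeff 1 : ℝ) : ℂ) * X +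
      C ((G.coeff 2 : ℝ) : ℂ) * X ^ 2 + C ((G.coeff 3 : ℝ) : ℂ) * X ^ 3 := by
    conv_lhs => rw [G.as_sum_range_C_mul_X_pow' (show G.natDegree < 4 by omega)]
    simp [Finset.sum_range_succ, toC]
  obtain ⟨h2, h3⟩ := hG
  have hI2 : Complex.I ^ 2 = -1 := Complex.I_sq
  have hI3 : Complex.I ^ 3 = -Complex.I := by rw [pow_succ, hI2]; ring
  have hp2 := pp_sq
  have hp3 : pp ^ 3 = -3 * pp := by rw [pow_succ, hp2]
  rw [h1] at h2 h3
  simp only [eval_add, eval_mul, eval_C, eval_X, eval_pow, mul_pow, hI2, hI3, hp2, hp3] at h2 h3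
  have h4 := congrArg Complex.re h2
  have h5 := congrArg Complex.im h2
  simp at h4 h5
  have h6 : G.coeff 2 = 0 := by norm_num at h4; linarith
  have h7 : G.coeff 1 = 7 * G.coeff 3 := by norm_num at h5; linarith
  have h8 : G.coeff 1 = 3 * G.coeff 3 := by
    have hs : Real.sqrt 3 ≠ 0 := by positivity
    simp [pp] at h3
    have h9 : Real.sqrt 3 * (G.coeff 1 - 3 * G.coeff 3) = 0 := by linarith
    have := (mul_eq_zero.1 h9).resolve_left hs
    linarith
  have h9 : G.coeff 3 = 0 := by linarith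
  have h10 : G.coeff 1 = 0 := by linarith
  conv_lhs => rw [G.as_sum_range_C_mul_X_pow' (show G.natDegree < 4 by omega)]
  simp [Finset.sum_range_succ, h6, h9, h10]

theorem surj (m : ℕ) : ∀ n, ∀ G : ℝ[X], G.natDegree ≤ n → n ≤ 8 * m → Cond G →
    ∃ Q : MvPolynomial (Fin 3) ℝ, Q.IsHomogeneous (2 * m) ∧ pull Q = G := by
  have hsmall : ∀ G : ℝ[X], G.natDegree ≤ 3 → Cond G →
      ∃ Q : MvPolynomial (Fin 3) ℝ, Q.IsHomogeneous (2 * m) ∧ pull Q = G := by
    intro G hd hG
    refine ⟨MvPolynomial.C (G.coeff 0 * (4 / 5) ^ m) * F₀ ^ m, ?_, ?_⟩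
    · exact MvPolynomial.IsHomogeneous.C_mul (homog_F₀.pow m) _
    · rw [map_mul, map_pow, pull_F₀, MvPolynomial.algHom_C]
      have e1 : (algebraMap ℝ ℝ[X]) (G.coeff 0 * (4 / 5) ^ m) = C (G.coeff 0 * (4 / 5) ^ m) := rfl
      rw [e1, ← C_pow, ← C_mul, mul_assoc, ← mul_pow]
      conv_rhs => rw [eq_C_of_cond hd hG]
      norm_num
  intro n
  induction n with
  | zero => exact fun G hd _ hG => hsmall G (by omega) hG
  | succ n ih =>
    intro G hd hn hG
    by_cases h3 : n + 1 ≤ 3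
    · exact hsmall G (by omega) hG
    · obtain ⟨Q, hQ1, hQ2, hQ3⟩ := exists_monic m (n + 1) (by omega) hn
      have h4 : (G - C (G.coeff (n + 1)) * pull Q).natDegree ≤ n := by
        rw [natDegree_le_iff_coeff_eq_zero]
        intro j hj
        rw [coeff_sub, coeff_C_mul]
        rcases Nat.lt_or_ge (n + 1) j with h5 | h5
        · have e5 : G.coeff j = 0 := coeff_eq_zero_of_natDegree_lt (by omega)
          have e6 : (pull Q).coeff j = 0 := coeff_eq_zero_of_natDegree_lt (by omega)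
          rw [e5, e6]
          ring
        · have h6 : j = n + 1 := by omega
          have h7 : (pull Q).coeff (n + 1) = 1 := by
            rw [← hQ3]
            exact hQ2
          rw [h6, h7]
          ring
      obtain ⟨Q', hQ'1, hQ'2⟩ := ih _ h4 (by omega) (hG.sub ((cond_pull hQ1).smul _))
      refine ⟨Q' + MvPolynomial.C (G.coeff (n + 1)) * Q, ?_, ?_⟩
      · exact hQ'1.add (MvPolynomial.IsHomogeneous.C_mul hQ1 _)
      · rw [map_add, map_mul, hQ'2, MvPolynomial.algHom_C]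
        have e1 : (algebraMap ℝ ℝ[X]) (G.coeff (n + 1)) = C (G.coeff (n + 1)) := rfl
        rw [e1]
        ring

end Pool.Agent.R863.Stub
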